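import Pool.Agent.H705.RO.Stm3

/-! # Task TL0 of the project RO (helper333, for helper705; copy of the proof of TAIL by helper339) -/

set_option autoImplicit false

namespace Pool.Agent.H333.RO

open MeasureTheory ProbabilityTheory Filter Topology Finset
open Pool.Agent.H705.RO

theorem pe_pos (m : ℕ) : 0 < pe m := by
  unfold pe
  have h : (0 : ℝ) < (m : ℝ) + 2 := by positivity
  have h2 : 1 / ((m : ℝ) + 2) < 1 := by
    rw [div_lt_one h]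
    have : (0 : ℝ) ≤ m := Nat.cast_nonneg m
    linarith
  linarith

theorem pe_le (m : ℕ) : pe m ≤ 1 := by
  unfold pe
  have h : (0 : ℝ) < 1 / ((m : ℝ) + 2) := by positivity
  linarith

theorem amp_block {a : ℕ → ℝ} (ha : Amp a) (m : ℕ) : ∃ C : ℝ, 0 < C ∧ ∀ j M : ℕ, 2 ^ j ≤ M →
    ∑ n ∈ Ico (2 ^ j) M, a n ^ 2 ≤ C * (2 : ℝ) ^ (-(pe m * j)) := by
  obtain ⟨C, hC⟩ := ha.2 (1 / ((m : ℝ) + 2)) (by positivity)
  refine ⟨max C 1, lt_max_of_lt_right one_pos, fun j M hM => ?_⟩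
  have h1 := hC (2 ^ j) M Nat.one_le_two_pow hM
  have h2 : ((2 ^ j : ℕ) : ℝ) ^ (-1 + 1 / ((m : ℝ) + 2)) = (2 : ℝ) ^ (-(pe m * j)) := by
    rw [Nat.cast_pow, Nat.cast_ofNat, ← Real.rpow_natCast, ← Real.rpow_mul (by norm_num)]
    congr 1
    unfold pe
    ring
  rw [h2] at h1
  exact h1.trans (mul_le_mul_of_nonneg_right (le_max_left _ _) (Real.rpow_nonneg (by norm_num) _))

theorem wave_abs {a β g w : ℕ → ℝ} (ha : ∀ n, 0 ≤ a n) (x : ℕ → ℝ × ℝ) (n : ℕ) (t : ℝ) :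
    |wave a β g w x n t| ≤ a n := by
  unfold wave
  rw [abs_mul, abs_of_nonneg (ha n)]
  exact mul_le_of_le_one_right (ha n) (Real.abs_cos_le_one _)

theorem cos_lip (x y : ℝ) : |Real.cos x - Real.cos y| ≤ |x - y| := by
  rw [Real.cos_sub_cos, abs_mul, abs_mul, abs_neg, abs_two]
  have h1 : |Real.sin ((x + y) / 2)| ≤ 1 := Real.abs_sin_le_one _
  have h2 : |Real.sin ((x - y) / 2)| ≤ |(x - y) / 2| := Real.abs_sin_le_abs
  have h3 : |(x - y) / 2| = |x - y| / 2 := by rw [abs_div, abs_two]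
  rw [h3] at h2
  have h4 : 2 * |Real.sin ((x + y) / 2)| ≤ 2 := by linarith
  calc 2 * |Real.sin ((x + y) / 2)| * |Real.sin ((x - y) / 2)| ≤ 2 * (|x - y| / 2) :=
        mul_le_mul h4 h2 (abs_nonneg _) (by norm_num)
    _ = |x - y| := by ring

theorem wave_lip {a β g w : ℕ → ℝ} {A : ℕ} (ha : ∀ n, 0 ≤ a n) (hw : ∀ n : ℕ, |g n| ≤ ((n : ℝ) + 2) ^ A ∧ 0 ≤ w n ∧ w n ≤ 1) {x : ℕ → ℝ × ℝ}
    (hx : ∀ n, (x n).1 ∈ Set.Icc (0 : ℝ) 1) (n : ℕ) (t t' : ℝ) :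
    |wave a β g w x n t - wave a β g w x n t'| ≤ a n * (2 * ((n : ℝ) + 2) ^ A) * |t - t'| := by
  obtain ⟨h1, h2, h3⟩ := hw n
  have h0 : (0 : ℝ) < ((n : ℝ) + 2) ^ A := by positivity
  have hw0 : 0 ≤ w n := h2
  have hA1 : (1 : ℝ) ≤ ((n : ℝ) + 2) ^ A :=
    one_le_pow₀ (by have : (0 : ℝ) ≤ n := Nat.cast_nonneg n; linarith)
  have h4 : |w n * (x n).1| ≤ 1 := by
    rw [abs_mul, abs_of_nonneg hw0, abs_of_nonneg (hx n).1]
    exact mul_le_one₀ h3 (hx n).1 (hx n).2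
  have h5 : |g n + w n * (x n).1| ≤ 2 * ((n : ℝ) + 2) ^ A := by
    refine (abs_add_le _ _).trans ?_
    linarith
  unfold wave
  rw [← mul_sub, abs_mul, abs_of_nonneg (ha n), mul_assoc (a n) (2 * ((n : ℝ) + 2) ^ A) |t - t'|]
  refine mul_le_mul_of_nonneg_left ((cos_lip _ _).trans ?_) (ha n)
  have h6 : (g n + w n * (x n).1) * t + 2 * Real.pi * (x n).2 + β n -
      ((g n + w n * (x n).1) * t' + 2 * Real.pi * (x n).2 + β n) =
      (g n + w n * (x n).1) * (t - t') := by ring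
  rw [h6, abs_mul]
  exact mul_le_mul_of_nonneg_right h5 (abs_nonneg _)

theorem wave_cont (a β g w : ℕ → ℝ) (x : ℕ → ℝ × ℝ) (n : ℕ) : Continuous (wave a β g w x n) := by
  unfold wave
  fun_prop

theorem T_TL0 (hMOD : P_MOD) (hEV : P_EV) (hBLK : P_BLK) (hSUM : P_SUM) (hCNV : P_CNV) :
    P_TL0 := by
  intro Ω _ P X hX a β g w A ha hw
  choose C hC0 hC using fun m => amp_block ha m
  have hev : ∀ m : ℕ, ∀ᵐ ω ∂P, ∃ K₀ : ℕ, ∀ j k : ℕ, K₀ ≤ j + k → ∀ i M : ℕ,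
      i ≤ 2 ^ (k + (A + 4) * j) → 2 ^ j ≤ M → M ≤ 2 ^ (j + 1) →
        |∑ n ∈ Ico (2 ^ j) M, wave a β g w (fun n => X n ω) n ((i : ℝ) / 2 ^ ((A + 4) * j))| ≤
          Real.sqrt (2 * C m * (A + 8)) * (2 : ℝ) ^ (-(pe m * j / 2)) * Real.sqrt ((j : ℝ) + k) :=
    fun m => hEV Ω P X hX a β g w A (pe m) (C m) ha.1 (pe_pos m) (pe_le m) (hC0 m) (hC m)
  filter_upwards [hMOD.2.2 Ω P X hX, ae_all_iff.2 hev] with ω hω1 hω2
  refine hCNV _ (fun n => wave_cont a β g w _ n) fun m => ?_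
  obtain ⟨K₀, hK₀⟩ := hω2 m
  have hsq : ∀ n, 1 ≤ n → a n ^ 2 ≤ C m := by
    intro n hn
    have h1 := hC m 0 (n + 1) (by simp)
    have h2 : a n ^ 2 ≤ ∑ i ∈ Ico (2 ^ 0) (n + 1), a i ^ 2 :=
      Finset.single_le_sum (f := fun i => a i ^ 2) (fun i _ => sq_nonneg _)
        (Finset.mem_Ico.2 ⟨by simpa using hn, Nat.lt_succ_self n⟩)
    refine h2.trans (h1.trans (le_of_eq ?_))
    simp
  obtain ⟨K, hK0, hK⟩ := hBLK (wave a β g w (fun n => X n ω)) a A K₀ (pe m) (C m)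
    (Real.sqrt (2 * C m * (A + 8))) (pe_pos m) (pe_le m) (hC0 m) (Real.sqrt_nonneg _) ha.1
    hsq (fun n t => wave_abs ha.1 _ n t) (fun n t t' => wave_lip ha.1 hw hω1 n t t')
    hK₀
  obtain ⟨c, hc0, hc⟩ := hSUM (pe m) (pe_pos m)
  refine ⟨c * K, fun J k t ht htk M M' hM hMM' => ?_⟩
  exact hc (fun n => wave a β g w (fun n => X n ω) n t) K k hK0
    (fun j M h1 h2 => hK j k t ht htk M h1 h2) J M M' hM hMM'

end Pool.Agent.H333.RO
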